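import Pool.Agent.H27.L1.H34.GZ.Targets1

/-!
The integrals over the lengths (row VLA of the board gz1).
-/

namespace Pool.Agent.H27.L1.H57.GZ

open MeasureTheory Pool.Agent.H27.L1.H34.GM Pool.Agent.H27.L1.H34.GZ

set_option linter.unusedVariables false

/-! ### integral of a product -/

lemma lint_prod (f : ℝ → ENNReal) (hf : Measurable f) :
    ∀ n : ℕ, ∫⁻ a : Fin n → ℝ, ∏ i, f (a i) = (∫⁻ t, f t) ^ n
  | 0 => by simp [volume_pi]
  | n + 1 => by
      have h := volume_preserving_piFinSuccAbove (fun _ : Fin (n + 1) => ℝ) 0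
      have hg : Measurable (fun a : Fin n → ℝ => ∏ i, f (a i)) :=
        Finset.measurable_prod _ (fun i _ => hf.comp (measurable_pi_apply i))
      have hm : Measurable (fun p : ℝ × (Fin n → ℝ) => f p.1 * ∏ i, f (p.2 i)) :=
        (hf.comp measurable_fst).mul (hg.comp measurable_snd)
      have e1 : ∫⁻ a : Fin (n + 1) → ℝ, ∏ i, f (a i) =
          ∫⁻ a : Fin (n + 1) → ℝ, (fun p : ℝ × (Fin n → ℝ) => f p.1 * ∏ i, f (p.2 i))
            (MeasurableEquiv.piFinSuccAbove (fun _ => ℝ) 0 a) := by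
        refine lintegral_congr fun a => ?_
        rw [Fin.prod_univ_succ]
        rfl
      rw [e1, h.lintegral_comp hm, Measure.volume_eq_prod]
      rw [lintegral_prod_mul hf.aemeasurable hg.aemeasurable, lint_prod f hf n, pow_succ,
        mul_comm]

/-! ### skewness -/

lemma skw_mul {m : ℕ} (a : Fin m → ℝ) (ha : ∀ i, 0 < a i) :
    skw a * ∏ j : Fin m, a j ^ (m - 1 - (j : ℕ)) = ∏ j : Fin m, a j ^ (j : ℕ) := by
  have h1 : skw a = (∏ i, ∏ j, if i < j then a j else 1) /
      (∏ i, ∏ j, if i < j then a i else 1) := by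
    unfold skw
    rw [← Finset.prod_div_distrib]
    refine Finset.prod_congr rfl fun i _ => ?_
    rw [← Finset.prod_div_distrib]
    refine Finset.prod_congr rfl fun j _ => ?_
    by_cases hij : i < j <;> simp [hij]
  have h2 : (∏ i : Fin m, ∏ j, if i < j then a j else 1) = ∏ j : Fin m, a j ^ (j : ℕ) := by
    rw [Finset.prod_comm]
    refine Finset.prod_congr rfl fun j _ => ?_
    rw [Finset.prod_ite, Finset.prod_const, Finset.prod_const_one, mul_one]
    have h : (Finset.univ.filter (fun i : Fin m => i < j)).card = (j : ℕ) := by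
      rw [Finset.filter_gt_eq_Iio, Fin.card_Iio]
    rw [h]
  have h3 : (∏ i : Fin m, ∏ j, if i < j then a i else 1) =
      ∏ j : Fin m, a j ^ (m - 1 - (j : ℕ)) := by
    refine Finset.prod_congr rfl fun i _ => ?_
    rw [Finset.prod_ite, Finset.prod_const, Finset.prod_const_one, mul_one]
    have h : (Finset.univ.filter (fun j : Fin m => i < j)).card = m - 1 - (i : ℕ) := by
      rw [Finset.filter_lt_eq_Ioi, Fin.card_Ioi]
    rw [h]
  rw [h1, h2, h3]
  have h4 : ∏ j : Fin m, a j ^ (m - 1 - (j : ℕ)) ≠ 0 :=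
    Finset.prod_ne_zero_iff.mpr fun j _ => (pow_pos (ha j) _).ne'
  field_simp

lemma skw_pos {m : ℕ} (a : Fin m → ℝ) (ha : ∀ i, 0 < a i) : 0 < skw a := by
  unfold skw
  refine Finset.prod_pos fun i _ => Finset.prod_pos fun j _ => ?_
  split_ifs
  · exact div_pos (ha j) (ha i)
  · exact one_pos

/-- `skw a * prod a_j^(2(m-1-j)) = P^m prod a_j^-1` -/
lemma skw_id {m : ℕ} (hm : 1 ≤ m) (a : Fin m → ℝ) (ha : ∀ i, 0 < a i) :
    skw a * ∏ j : Fin m, a j ^ (2 * (m - 1 - (j : ℕ))) = (∏ j, a j) ^ m * ∏ j, (a j)⁻¹ := by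
  have h1 : ∏ j : Fin m, a j ^ (2 * (m - 1 - (j : ℕ))) =
      (∏ j : Fin m, a j ^ (m - 1 - (j : ℕ))) * ∏ j : Fin m, a j ^ (m - 1 - (j : ℕ)) := by
    rw [← Finset.prod_mul_distrib]
    refine Finset.prod_congr rfl fun j _ => ?_
    rw [two_mul, pow_add]
  rw [h1, ← mul_assoc, skw_mul a ha, ← Finset.prod_mul_distrib, ← Finset.prod_pow,
    ← Finset.prod_mul_distrib]
  refine Finset.prod_congr rfl fun j _ => ?_
  rw [← pow_add]
  have h2 : (j : ℕ) + (m - 1 - (j : ℕ)) = m - 1 := by have := j.2; omega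
  rw [h2]
  have h3 : a j ^ m = a j ^ (m - 1) * a j := by
    rw [← pow_succ]; congr 1; omega
  rw [h3, mul_assoc, mul_inv_cancel₀ (ha j).ne', mul_one]

lemma skw_lower {m : ℕ} (a : Fin m → ℝ) (ha : ∀ i, 0 < a i)
    (hc : ∀ i j, i ≤ j → a i ≤ 2 ^ m * a j) :
    1 ≤ (2 ^ m : ℝ) ^ (m * m) * skw a ∧
    ∀ i j, i < j → a j ≤ ((2 ^ m : ℝ) ^ (m * m) * skw a) * a i := by
  have h2 : (0 : ℝ) < 2 ^ m := by positivity
  have h21 : (1 : ℝ) ≤ 2 ^ m := one_le_pow₀ (by norm_num)
  have key : (2 ^ m : ℝ) ^ (m * m) * skw a =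
      ∏ p : Fin m × Fin m, (2 ^ m * if p.1 < p.2 then a p.2 / a p.1 else 1) := by
    rw [Finset.prod_mul_distrib, Finset.prod_const, Fintype.prod_prod_type]
    simp [skw]
  have hf : ∀ p : Fin m × Fin m, 1 ≤ (2 ^ m * if p.1 < p.2 then a p.2 / a p.1 else 1 : ℝ) := by
    intro p
    split_ifs with hp
    · rw [← mul_div_assoc, le_div_iff₀ (ha _), one_mul]
      exact hc _ _ hp.le
    · simpa using h21
  constructor
  · rw [key]
    calc (1 : ℝ) = ∏ p : Fin m × Fin m, (1 : ℝ) := by simp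
      _ ≤ _ := Finset.prod_le_prod (fun _ _ => zero_le_one) fun p _ => hf p
  · intro i j hij
    rw [key]
    have h5 : a j / a i ≤
        ∏ p : Fin m × Fin m, (2 ^ m * if p.1 < p.2 then a p.2 / a p.1 else 1) := by
      calc a j / a i ≤ 2 ^ m * (a j / a i) :=
            le_mul_of_one_le_left (div_pos (ha j) (ha i)).le h21
        _ = ∏ p : Fin m × Fin m, (if p = (i, j) then 2 ^ m * (a j / a i) else 1) := by
            rw [Finset.prod_ite_eq' Finset.univ (i, j) (fun _ => (2 ^ m * (a j / a i) : ℝ))]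
            simp
        _ ≤ _ := by
            refine Finset.prod_le_prod (fun p _ => ?_) fun p _ => ?_
            · split_ifs
              · exact mul_nonneg h2.le (div_pos (ha j) (ha i)).le
              · exact zero_le_one
            · by_cases hp : p = (i, j)
              · subst hp
                simp [hij]
              · rw [if_neg hp]
                exact hf p
    rw [div_le_iff₀ (ha i)] at h5
    exact h5

/-- all lengths comparable up to `R` -/
lemma len_bd {m : ℕ} (hm : 1 ≤ m) (a : Fin m → ℝ) (ha : ∀ i, 0 < a i) (h1 : 1 ≤ ∏ i, a i)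
    (h2 : ∏ i, a i < Real.exp m) (R : ℝ) (hR : 0 < R) (hr : ∀ i j, a i ≤ R * a j) (i : Fin m) :
    1 ≤ R * a i ∧ a i ≤ R * Real.exp 1 := by
  have hm0 : m ≠ 0 := by omega
  constructor
  · have h3 : 1 ≤ (R * a i) ^ m := by
      calc (1 : ℝ) ≤ ∏ j, a j := h1
        _ ≤ ∏ j : Fin m, (R * a i) :=
            Finset.prod_le_prod (fun j _ => (ha j).le) fun j _ => hr j i
        _ = (R * a i) ^ m := by simp
    exact (one_le_pow_iff_of_nonneg (mul_pos hR (ha i)).le hm0).mp h3
  · have h3 : a i ^ m ≤ (R * Real.exp 1) ^ m := by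
      calc a i ^ m = ∏ j : Fin m, a i := by simp
        _ ≤ ∏ j : Fin m, (R * a j) :=
            Finset.prod_le_prod (fun j _ => (ha i).le) fun j _ => hr i j
        _ = R ^ m * ∏ j, a j := by rw [Finset.prod_mul_distrib]; simp
        _ ≤ R ^ m * Real.exp m := mul_le_mul_of_nonneg_left h2.le (by positivity)
        _ = (R * Real.exp 1) ^ m := by
            rw [mul_pow, ← Real.exp_nat_mul, mul_one]
    exact le_of_pow_le_pow_left₀ hm0 (by positivity) h3

/-! ### one dimensional integrals -/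

lemma int_inv (R : ℝ) (hR : 1 ≤ R) :
    ∫⁻ t in Set.Icc R⁻¹ (R * Real.exp 1), ENNReal.ofReal t⁻¹ =
      ENNReal.ofReal (1 + 2 * Real.log R) := by
  have hR0 : 0 < R := by linarith
  have hL : 0 < R⁻¹ := inv_pos.mpr hR0
  have hU : 0 < R * Real.exp 1 := by positivity
  have hLU : R⁻¹ ≤ R * Real.exp 1 := by
    calc R⁻¹ ≤ 1 := inv_le_one_of_one_le₀ hR
      _ ≤ R * Real.exp 1 := by
          have : 1 ≤ Real.exp 1 := Real.one_le_exp zero_le_one
          nlinarith
  have hi : IntegrableOn (fun t : ℝ => t⁻¹) (Set.Icc R⁻¹ (R * Real.exp 1)) := by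
    refine ContinuousOn.integrableOn_Icc ?_
    refine continuousOn_inv₀.mono fun t ht => ?_
    exact (lt_of_lt_of_le hL ht.1).ne'
  rw [← ofReal_integral_eq_lintegral_ofReal hi]
  · congr 1
    rw [integral_Icc_eq_integral_Ioc, ← intervalIntegral.integral_of_le hLU,
      integral_inv_of_pos hL hU, Real.log_div hU.ne' hL.ne', Real.log_mul hR0.ne'
      (Real.exp_pos 1).ne', Real.log_inv, Real.log_exp]
    ring
  · rw [Filter.EventuallyLE, ae_restrict_iff' measurableSet_Icc]
    exact Filter.Eventually.of_forall fun t ht => inv_nonneg.mpr (lt_of_lt_of_le hL ht.1).le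

noncomputable def gf (s : ℝ) (t : ℝ) : ENNReal :=
  (Set.Ioc (0 : ℝ) 1).indicator (fun t => ENNReal.ofReal (t ^ (s - 1))) t +
    (Set.Ioi (1 : ℝ)).indicator (fun t => ENNReal.ofReal (t ^ (-s - 1))) t

lemma gf_meas (s : ℝ) : Measurable (gf s) := by
  unfold gf
  refine Measurable.add ?_ ?_
  · refine Measurable.indicator ?_ measurableSet_Ioc
    exact (measurable_id.pow_const _).ennreal_ofReal
  · refine Measurable.indicator ?_ measurableSet_Ioi
    exact (measurable_id.pow_const _).ennreal_ofReal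

lemma gf_int (s : ℝ) (hs : 0 < s) : ∫⁻ t, gf s t < ⊤ := by
  unfold gf
  rw [lintegral_add_left, lintegral_indicator measurableSet_Ioc,
    lintegral_indicator measurableSet_Ioi]
  · refine ENNReal.add_lt_top.mpr ⟨?_, ?_⟩
    · have h1 : IntegrableOn (fun t : ℝ => t ^ (s - 1)) (Set.Ioc 0 1) :=
        (intervalIntegrable_iff_integrableOn_Ioc_of_le zero_le_one).mp
          (intervalIntegral.intervalIntegrable_rpow' (by linarith))
      exact Integrable.lintegral_lt_top h1
    · have h1 : IntegrableOn (fun t : ℝ => t ^ (-s - 1)) (Set.Ioi 1) :=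
        integrableOn_Ioi_rpow_of_lt (by linarith) one_pos
      exact Integrable.lintegral_lt_top h1
  · refine Measurable.indicator ?_ measurableSet_Ioc
    exact (measurable_id.pow_const _).ennreal_ofReal

/-- the function `gf` bounds -/
lemma gf_ge (s : ℝ) (hs : 0 < s) (x t : ℝ) (hx : 0 ≤ x) (ht : 0 < t) (h1 : x ≤ t)
    (h2 : x * t ≤ 1) : ENNReal.ofReal (x ^ s * t⁻¹) ≤ gf s t := by
  unfold gf
  rcases le_or_gt t 1 with h | h
  · have hm : t ∈ Set.Ioc (0 : ℝ) 1 := ⟨ht, h⟩
    rw [Set.indicator_of_mem hm]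
    refine le_trans (ENNReal.ofReal_le_ofReal ?_) le_self_add
    rw [Real.rpow_sub_one ht.ne', div_eq_mul_inv]
    exact mul_le_mul_of_nonneg_right (Real.rpow_le_rpow hx h1 hs.le) (inv_nonneg.mpr ht.le)
  · have hm : t ∈ Set.Ioi (1 : ℝ) := h
    rw [Set.indicator_of_mem hm]
    refine le_trans (ENNReal.ofReal_le_ofReal ?_) le_add_self
    rw [Real.rpow_sub_one ht.ne', div_eq_mul_inv, Real.rpow_neg ht.le, ← Real.inv_rpow ht.le]
    refine mul_le_mul_of_nonneg_right (Real.rpow_le_rpow hx ?_ hs.le) (inv_nonneg.mpr ht.le)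
    rw [← one_div, le_div_iff₀ ht]
    exact h2

/-! ### the two regions -/

lemma part1 (m : ℕ) (hm : 1 ≤ m) (Y : ℝ) (hY : 2 ≤ Y) :
    ∫⁻ a in {a : Fin m → ℝ | (∀ i, 0 < a i) ∧ 1 ≤ ∏ i, a i ∧
        ∏ i, a i < Real.exp m ∧ (∀ i j, i ≤ j → a i ≤ 2 ^ m * a j) ∧
        ∀ i j : Fin m, (i : ℕ) + 1 = j → a j ≤ Y * a i},
      ENNReal.ofReal (skw a * ∏ j : Fin m, a j ^ (2 * (m - 1 - (j : ℕ)))) ≤
        ENNReal.ofReal ((Real.exp m ^ m * (1 + 2 * m) ^ m) * (1 + Real.log Y) ^ m) := by
  have hY0 : 0 < Y := by linarith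
  set R : ℝ := (2 * Y) ^ m with hR
  have hR1 : 1 ≤ R := one_le_pow₀ (by linarith)
  have hR0 : 0 < R := by linarith
  set f : ℝ → ENNReal := (Set.Icc R⁻¹ (R * Real.exp 1)).indicator
    (fun t => ENNReal.ofReal t⁻¹) with hf
  have hfm : Measurable f := by
    refine Measurable.indicator ?_ measurableSet_Icc
    exact measurable_inv.ennreal_ofReal
  have hpm : Measurable (fun a : Fin m → ℝ => ∏ i, f (a i)) :=
    Finset.measurable_prod _ (fun i _ => hfm.comp (measurable_pi_apply i))
  have hE : 0 ≤ Real.exp m ^ m := by positivity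
  refine le_trans (setLIntegral_mono (g := fun a : Fin m → ℝ =>
    ENNReal.ofReal (Real.exp m ^ m) * ∏ i, f (a i)) (hpm.const_mul _) ?_) ?_
  · rintro a ⟨ha, h1, h2, h3, h4⟩
    rw [skw_id hm a ha, ENNReal.ofReal_mul (by positivity)]
    have hch : ∀ d : ℕ, ∀ i j : Fin m, (i : ℕ) + d = j → a j ≤ Y ^ d * a i := by
      intro d
      induction d with
      | zero =>
          intro i j hij
          have : i = j := Fin.ext (by simpa using hij)
          subst this
          simp
      | succ d ih =>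
          intro i j hij
          have hk : (i : ℕ) + d < m := by have := j.2; omega
          have h5 := ih i ⟨i + d, hk⟩ rfl
          have h6 := h4 ⟨i + d, hk⟩ j (by simp only []; omega)
          calc a j ≤ Y * a ⟨i + d, hk⟩ := h6
            _ ≤ Y * (Y ^ d * a i) := mul_le_mul_of_nonneg_left h5 hY0.le
            _ = Y ^ (d + 1) * a i := by ring
    have hr : ∀ i j, a i ≤ R * a j := by
      intro i j
      rcases le_total i j with hij | hij
      · refine (h3 i j hij).trans (mul_le_mul_of_nonneg_right ?_ (ha j).le)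
        exact pow_le_pow_left₀ (by norm_num) (by linarith) _
      · have h5 := hch ((i : ℕ) - j) j i (by have : (j : ℕ) ≤ i := hij; omega)
        refine h5.trans (mul_le_mul_of_nonneg_right ?_ (ha j).le)
        calc Y ^ ((i : ℕ) - j) ≤ Y ^ m :=
              pow_le_pow_right₀ (by linarith) (by have := i.2; omega)
          _ ≤ R := pow_le_pow_left₀ hY0.le (by linarith) _
    have hb := len_bd hm a ha h1 h2 R hR0 hr
    refine mul_le_mul' (ENNReal.ofReal_le_ofReal ?_) ?_
    · exact pow_le_pow_left₀ (by linarith) h2.le _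
    · rw [ENNReal.ofReal_prod_of_nonneg fun i _ => inv_nonneg.mpr (ha i).le]
      refine Finset.prod_le_prod' fun i _ => ?_
      have hmem : a i ∈ Set.Icc R⁻¹ (R * Real.exp 1) := by
        refine ⟨?_, (hb i).2⟩
        rw [← one_div, div_le_iff₀ hR0, mul_comm]
        exact (hb i).1
      rw [hf, Set.indicator_of_mem hmem]
  · refine le_trans (setLIntegral_le_lintegral _ _) ?_
    rw [lintegral_const_mul _ hpm, lint_prod f hfm, hf, lintegral_indicator measurableSet_Icc,
      int_inv R hR1, ← ENNReal.ofReal_pow, ← ENNReal.ofReal_mul hE]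
    · refine ENNReal.ofReal_le_ofReal ?_
      rw [mul_assoc]
      refine mul_le_mul_of_nonneg_left ?_ hE
      rw [← mul_pow]
      refine pow_le_pow_left₀ ?_ ?_ _
      · have := Real.log_nonneg hR1
        linarith
      · rw [hR, Real.log_pow, Real.log_mul (by norm_num) hY0.ne']
        have h5 : Real.log 2 ≤ 1 := by
          have := Real.log_two_lt_d9
          linarith
        have h6 : 0 ≤ Real.log 2 := Real.log_nonneg (by norm_num)
        have h7 : 0 ≤ Real.log Y := Real.log_nonneg (by linarith)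
        have h8 : (0 : ℝ) ≤ m := Nat.cast_nonneg m
        have h9 : (m : ℝ) * Real.log 2 ≤ m * 1 := mul_le_mul_of_nonneg_left h5 h8
        nlinarith
    · have := Real.log_nonneg hR1
      linarith

lemma part2 (m : ℕ) (hm : 1 ≤ m) : ∃ C : ℝ, 0 < C ∧
    ∫⁻ a in {a : Fin m → ℝ | (∀ i, 0 < a i) ∧ 1 ≤ ∏ i, a i ∧
        ∏ i, a i < Real.exp m ∧ ∀ i j, i ≤ j → a i ≤ 2 ^ m * a j},
      ENNReal.ofReal (∏ j : Fin m, a j ^ (2 * (m - 1 - (j : ℕ)))) ≤ ENNReal.ofReal C := by
  have hm0 : (0 : ℝ) < m := by exact_mod_cast hm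
  set s : ℝ := (m : ℝ)⁻¹ with hs
  have hs0 : 0 < s := inv_pos.mpr hm0
  set K : ℝ := (2 ^ m : ℝ) ^ (m * m) with hK
  have hK0 : 0 < K := by positivity
  set B : ℝ := 2 ^ m * K * Real.exp 1 with hB
  have hB0 : 0 < B := by positivity
  have hpm : Measurable (fun a : Fin m → ℝ => ∏ i, gf s (a i)) :=
    Finset.measurable_prod _ (fun i _ => (gf_meas s).comp (measurable_pi_apply i))
  have hfin : ENNReal.ofReal (Real.exp m ^ m * B) * (∫⁻ t, gf s t) ^ m ≠ ⊤ :=
    ENNReal.mul_ne_top ENNReal.ofReal_ne_top (ENNReal.pow_ne_top (gf_int s hs0).ne)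
  refine ⟨(ENNReal.ofReal (Real.exp m ^ m * B) * (∫⁻ t, gf s t) ^ m).toReal + 1,
    by positivity, ?_⟩
  refine le_trans (le_trans (setLIntegral_mono (g := fun a : Fin m → ℝ =>
    ENNReal.ofReal (Real.exp m ^ m * B) * ∏ i, gf s (a i)) (hpm.const_mul _) ?_) ?_)
      (ENNReal.ofReal_le_ofReal (le_add_of_nonneg_right zero_le_one))
  · rintro a ⟨ha, h1, h2, h3⟩
    have hk := skw_lower a ha h3
    have hsk := skw_pos a ha
    rw [← hK] at hk
    have hR0 : 0 < 2 ^ m * (K * skw a) := by positivity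
    have hr : ∀ i j, a i ≤ (2 ^ m * (K * skw a)) * a j := by
      intro i j
      have h21 : (1 : ℝ) ≤ 2 ^ m := one_le_pow₀ (by norm_num)
      rcases le_or_gt i j with hij | hij
      · refine (h3 i j hij).trans (mul_le_mul_of_nonneg_right ?_ (ha j).le)
        exact le_mul_of_one_le_right (by positivity) hk.1
      · refine (hk.2 j i hij).trans (mul_le_mul_of_nonneg_right ?_ (ha j).le)
        exact le_mul_of_one_le_left (by positivity) h21
    have hb := len_bd hm a ha h1 h2 _ hR0 hr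
    have he : 1 ≤ Real.exp 1 := Real.one_le_exp zero_le_one
    -- x = 1 / (B skw a)
    set x : ℝ := (B * skw a)⁻¹ with hx
    have hx0 : 0 < x := by positivity
    have hid : ∏ j : Fin m, a j ^ (2 * (m - 1 - (j : ℕ))) =
        ((∏ j, a j) ^ m * B) * ∏ j, (x ^ s * (a j)⁻¹) := by
      have h5 := skw_id hm a ha
      have hxs : (x ^ s) ^ m = x := by
        rw [← Real.rpow_natCast, ← Real.rpow_mul hx0.le, hs, inv_mul_cancel₀ hm0.ne',
          Real.rpow_one]
      rw [Finset.prod_mul_distrib, Finset.prod_const, Finset.card_univ, Fintype.card_fin, hxs]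
      have h6 : ∏ j : Fin m, a j ^ (2 * (m - 1 - (j : ℕ))) =
          (skw a)⁻¹ * ((∏ j, a j) ^ m * ∏ j, (a j)⁻¹) := by
        rw [← h5, ← mul_assoc, inv_mul_cancel₀ hsk.ne', one_mul]
      rw [h6, hx, mul_inv]
      field_simp
    rw [hid, ENNReal.ofReal_mul (by positivity)]
    refine mul_le_mul' (ENNReal.ofReal_le_ofReal ?_) ?_
    · exact mul_le_mul_of_nonneg_right (pow_le_pow_left₀ (by linarith) h2.le _) hB0.le
    · rw [ENNReal.ofReal_prod_of_nonneg fun i _ => by
        have := ha i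
        positivity]
      refine Finset.prod_le_prod' fun i _ => ?_
      refine gf_ge s hs0 x (a i) hx0.le (ha i) ?_ ?_
      · rw [hx, ← one_div, div_le_iff₀ (by positivity)]
        have h7 := (hb i).1
        calc (1 : ℝ) ≤ 2 ^ m * (K * skw a) * a i := h7
          _ ≤ (2 ^ m * (K * skw a) * a i) * Real.exp 1 :=
              le_mul_of_one_le_right (mul_pos hR0 (ha i)).le he
          _ = a i * (B * skw a) := by rw [hB]; ring
      · rw [hx, mul_comm, ← div_eq_mul_inv, div_le_one (by positivity)]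
        calc a i ≤ 2 ^ m * (K * skw a) * Real.exp 1 := (hb i).2
          _ = B * skw a := by rw [hB]; ring
  · refine le_trans (setLIntegral_le_lintegral _ _) ?_
    rw [lintegral_const_mul _ hpm, lint_prod _ (gf_meas s), ENNReal.ofReal_toReal hfin]

theorem pf_VLA : T_VLA := by
  intro m hm
  obtain ⟨C, hC, h2⟩ := part2 m hm
  have hE : 0 < Real.exp m ^ m * (1 + 2 * (m : ℝ)) ^ m := by positivity
  refine ⟨Real.exp m ^ m * (1 + 2 * m) ^ m + C, by linarith, fun Y hY => ?_, ?_⟩
  · refine le_trans (part1 m hm Y hY) (ENNReal.ofReal_le_ofReal ?_)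
    refine mul_le_mul_of_nonneg_right (by linarith) (pow_nonneg ?_ _)
    have := Real.log_nonneg (show (1 : ℝ) ≤ Y by linarith)
    linarith
  · exact le_trans h2 (ENNReal.ofReal_le_ofReal (by linarith))

end Pool.Agent.H27.L1.H57.GZ
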